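import Pool.Agent.Helper4.LF.ConvAux
import Pool.Agent.Helper28.LF.SubA

/-!
# Project LF, module LF-6: the sequence of least elements converges
-/

set_option autoImplicit false

namespace Pool.Agent.Helper50.LF

open Pool.Agent.Helper33.HM Pool.Agent.Helper94.BA
open Pool.Agent.Helper32.FR (wt nd PN okV avV lsV valV incV accS accV piV Scale)

section Gen

variable {B : Type 1} [CompleteBooleanAlgebra B] {c : Ordinal.{0} → ℕ → B}

theorem conv_of (hc : Scale c) (γ : Ordinal.{0}) (A : Node → B) (t : Node) (Z : ℕ → B) :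
    (⨅ n : ℕ, Z n ⇨ subA (c γ) (fun n => A (nd n)) t n) ⊓ Pool.Agent.Helper32.FR.convV c γ t Z ≤
      convV (fun _ : Ordinal.{0} => (⊤ : B)) (fun β => decV (c β)) A t (enN Z) := by
  have h : ∀ n, ((⨅ n : ℕ, Z n ⇨ subA (c γ) (fun n => A (nd n)) t n) ⊓
      Pool.Agent.Helper32.FR.convV c γ t Z) ⊓ Z n ≤ subA (c γ) (fun n => A (nd n)) t n := by
    intro n
    rw [← le_himp_iff]
    exact inf_le_left.trans (iInf_le _ n)
  refine h4_conv hc γ A t Z _ (fun n => (h n).trans inf_le_left) (fun n i hi hti => ?_)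
    inf_le_right
  refine (h n).trans (inf_le_right.trans ?_)
  exact (iInf_le _ i).trans ((iInf_le _ hi).trans (iInf_le _ hti))

end Gen

end Pool.Agent.Helper50.LF
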