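import Pool.Agent.Helper50.LF.Names
import Pool.Agent.Helper82.BA.Coding

/-!
# Project LF, module LF-6, part 1: sets which converge give sequences which converge
-/

set_option autoImplicit false

namespace Pool.Agent.Helper50.LF

open Pool.Agent.Helper33.HM Pool.Agent.Helper94.BA
open Pool.Agent.Helper32.FR (wt nd PN okV avV lsV valV incV accS accV piV Scale)

section Gen

variable {B : Type 1} [CompleteBooleanAlgebra B] {c : Ordinal.{0} → ℕ → B}

/-- The name of the sequence whose `k`-th member is the node with the number `min (Z ∩ [k, ∞))`. -/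
def enN (Z : ℕ → B) (k : ℕ) (a : Node) : B :=
  ⨆ n : ℕ, ⨆ _ : k ≤ n ∧ nd n = a, Z n ⊓ ⨅ i : ℕ, ⨅ _ : k ≤ i ∧ i < n, (Z i)ᶜ

theorem h4_split {ι : Type} {b u : B} (x : ι → B) (h : b ≤ ⨆ i, x i)
    (h' : ∀ i, b ⊓ x i ≤ u) : b ≤ u := by
  have h1 : b ≤ b ⊓ ⨆ i, x i := le_inf le_rfl h
  rw [inf_iSup_eq] at h1
  exact h1.trans (iSup_le h')

theorem h4_split2 {b u : B} (x : B) (h1 : b ⊓ x ≤ u) (h2 : b ⊓ xᶜ ≤ u) : b ≤ u := by
  have h : b = b ⊓ x ⊔ b ⊓ xᶜ := by rw [← inf_sup_left, sup_compl_eq_top, inf_top_eq]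
  rw [h]
  exact sup_le h1 h2

theorem h4_en_term (Z : ℕ → B) (k : ℕ) : ∀ n : ℕ, k ≤ n →
    Z n ≤ ⨆ m : ℕ, ⨆ _ : k ≤ m, Z m ⊓ ⨅ i : ℕ, ⨅ _ : k ≤ i ∧ i < m, (Z i)ᶜ := by
  intro n
  induction n using Nat.strong_induction_on with
  | _ n ih =>
    intro hn
    refine h4_split2 (⨅ i : ℕ, ⨅ _ : k ≤ i ∧ i < n, (Z i)ᶜ) ?_ ?_
    · exact le_iSup₂ (f := fun (m : ℕ) (_ : k ≤ m) =>
        Z m ⊓ ⨅ i : ℕ, ⨅ _ : k ≤ i ∧ i < m, (Z i)ᶜ) n hn
    · refine inf_le_right.trans ?_
      simp only [compl_iInf, compl_compl]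
      exact iSup₂_le fun i hi => ih i hi.2 hi.1

/-- The node of the `k`-th member exists if `Z` is infinite. -/
theorem h4_en_sup (Z : ℕ → B) (k : ℕ) (b u : B) (hb : b ≤ (finV Z)ᶜ)
    (h : ∀ n, k ≤ n → b ⊓ (Z n ⊓ ⨅ i : ℕ, ⨅ _ : k ≤ i ∧ i < n, (Z i)ᶜ) ≤ u) : b ≤ u := by
  have h1 : (finV Z)ᶜ ≤ ⨆ n : ℕ, ⨆ _ : k ≤ n, Z n := by
    rw [compl_le_iff_compl_le]
    simp only [compl_iSup]
    exact le_iSup (fun m : ℕ => ⨅ n : ℕ, ⨅ _ : m ≤ n, (Z n)ᶜ) k
  have h2 : b ≤ ⨆ m : ℕ, ⨆ _ : k ≤ m, Z m ⊓ ⨅ i : ℕ, ⨅ _ : k ≤ i ∧ i < m, (Z i)ᶜ :=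
    hb.trans (h1.trans (iSup₂_le fun n hn => h4_en_term Z k n hn))
  refine h4_split _ h2 fun n => ?_
  rw [inf_iSup_eq]
  exact iSup_le fun hn => h n hn

/-- If the nodes of `Z` with large numbers belong to the set with the value `w`, so do the late
members of the sequence. -/
theorem h4_en_le {Z : ℕ → B} {w : Node → B} {d : B} {K : ℕ}
    (h : ∀ n, K ≤ n → d ⊓ Z n ≤ w (nd n)) :
    d ≤ ⨆ K : ℕ, ⨅ k : ℕ, ⨅ _ : K ≤ k, ⨅ a : Node, enN Z k a ⇨ w a := by
  refine le_iSup_of_le K (le_iInf fun k => le_iInf fun hk => le_iInf fun a => ?_)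
  rw [le_himp_iff]
  unfold enN
  rw [inf_iSup_eq]
  refine iSup_le fun n => ?_
  rw [inf_iSup_eq]
  refine iSup_le fun hn => ?_
  obtain ⟨hn, rfl⟩ := hn
  exact (inf_le_inf le_rfl inf_le_left).trans (h n (hk.trans hn))

theorem h4_leStar_split {f g : ℕ → ℕ → B} {b u : B} (h : b ≤ leStar f g)
    (h' : ∀ M : ℕ, (b ⊓ ⨅ n : ℕ, ⨅ _ : M ≤ n, ⨅ k : ℕ, g n k ⇨ f n k) ≤ u) : b ≤ u :=
  h4_split _ h h'

theorem h4_fin_split {Z : ℕ → B} {b u : B} (h : b ≤ finV Z)
    (h' : ∀ M : ℕ, (b ⊓ ⨅ n : ℕ, ⨅ _ : M ≤ n, (Z n)ᶜ) ≤ u) : b ≤ u :=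
  h4_split _ h h'

/-- The weight of an initial segment which contains `j` beyond `t`. -/
theorem h4_wt {t u : List ℕ} {j i : ℕ} (hi : t.length < i) :
    j ≤ wt ((t ++ j :: u).take i) := by
  obtain ⟨e, rfl⟩ : ∃ e, i = t.length + (e + 1) := ⟨i - t.length - 1, by omega⟩
  rw [List.take_length_add_append]
  unfold Pool.Agent.Helper32.FR.wt
  simp only [List.take_succ_cons, List.sum_append, List.sum_cons]
  omega

/-- Membership of `s` from membership of `t` and the values beyond `t`. -/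
theorem h4_ok {x : ℕ → B} {t s : List ℕ} {d : B} (h : okV t x ≥ d) (hts : t <+: s)
    (h' : ∀ (i : ℕ) (hi : i < s.length), t.length ≤ i → d ⊓ valV x (wt (s.take i)) s[i] ≤ ⊥) :
    d ≤ okV s x := by
  obtain ⟨u, rfl⟩ := hts
  unfold Pool.Agent.Helper32.FR.okV
  refine le_iInf fun i => le_iInf fun hi => ?_
  rcases lt_or_ge i t.length with hlt | hge
  · refine h.trans ?_
    unfold Pool.Agent.Helper32.FR.okV
    refine (iInf_le _ i).trans ((iInf_le _ hlt).trans ?_)
    rw [List.getElem_append_left hlt, List.take_append_of_le_length hlt.le]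
  · rw [le_compl_iff_disjoint_right, disjoint_iff_inf_le]
    exact h' i hi hge

end Gen

section Main

variable {B : Type 1} [CompleteBooleanAlgebra B] {c : Ordinal.{0} → ℕ → B}

theorem h4_prefix_iff {t s : List ℕ} {m : ℕ} : PN t m s ↔ ∃ l, m ≤ l ∧ t ++ [l] <+: s := by
  unfold Pool.Agent.Helper32.FR.PN
  constructor
  · rintro ⟨j, u, hj, rfl⟩
    exact ⟨j, hj, u, by simp⟩
  · rintro ⟨l, hl, u, rfl⟩
    exact ⟨l, u, hl, by simp⟩

theorem h4_conv (hc : Scale c) (γ : Ordinal.{0}) (A : Node → B) (t : Node) (Z : ℕ → B)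
    (D : B) (hA : ∀ n, D ⊓ Z n ≤ A (nd n))
    (hS : ∀ n i, ∀ h : i < (nd n).length, t.length < i →
      D ⊓ Z n ≤ (decV (c γ) (wt ((nd n).take i)) (nd n)[i])ᶜ)
    (hD : D ≤ Pool.Agent.Helper32.FR.convV c γ t Z) :
    D ≤ convV (fun _ : Ordinal.{0} => (⊤ : B)) (fun β => decV (c β)) A t (enN Z) := by
  have hinf : D ≤ (finV Z)ᶜ := hD.trans (inf_le_left.trans inf_le_left)
  have hcon : ∀ k, D ≤ finV fun n => ⨆ _ : ¬ PN t k (nd n), Z n := fun k =>
    hD.trans ((inf_le_left.trans inf_le_right).trans (iInf_le _ k))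
  have hav : ∀ β, β < γ → D ⊓ okV t (c β) ≤ finV fun n => Z n ⊓ (avV t (c β) (nd n))ᶜ := by
    intro β hβ
    rw [← le_himp_iff]
    exact hD.trans (inf_le_right.trans ((iInf_le _ β).trans (iInf_le _ hβ)))
  refine le_inf (le_inf (le_inf ?_ ?_) ?_) ?_
  · refine le_iInf fun k => ?_
    refine h4_en_sup Z k D _ hinf fun n hn => ?_
    refine le_iSup_of_le (nd n) (le_inf ?_ ?_)
    · refine inf_le_right.trans ?_
      exact le_iSup₂ (f := fun (m : ℕ) (_ : k ≤ m ∧ nd m = nd n) =>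
        Z m ⊓ ⨅ i : ℕ, ⨅ _ : k ≤ i ∧ i < m, (Z i)ᶜ) n ⟨hn, rfl⟩
    · exact (inf_le_inf le_rfl inf_le_left).trans (hA n)
  · refine le_iInf fun k => le_iInf fun a => le_iInf fun b => le_iInf fun hab => ?_
    have h0 : enN Z k a ⊓ enN Z k b ≤ ⊥ := by
      unfold enN
      rw [iSup_inf_eq]
      refine iSup_le fun n => ?_
      rw [iSup_inf_eq]
      refine iSup_le fun hn => ?_
      rw [inf_iSup_eq]
      refine iSup_le fun n' => ?_
      rw [inf_iSup_eq]
      refine iSup_le fun hn' => ?_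
      have hne : n ≠ n' := by
        rintro rfl
        exact hab (hn.2.symm.trans hn'.2)
      rcases lt_or_gt_of_ne hne with h | h
      · refine (inf_le_inf inf_le_left (inf_le_right.trans ((iInf_le _ n).trans
          (iInf_le _ ⟨hn.1, h⟩)))).trans ?_
        rw [inf_compl_eq_bot]
      · refine (inf_le_inf (inf_le_right.trans ((iInf_le _ n').trans
          (iInf_le _ ⟨hn'.1, h⟩))) inf_le_left).trans ?_
        rw [compl_inf_eq_bot]
    rw [le_bot_iff.1 h0, compl_bot]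
    exact le_top
  · refine le_iInf fun m => ?_
    refine h4_fin_split (hcon m) fun M => ?_
    refine le_iSup_of_le M (le_iInf fun k => le_iInf fun hk => ?_)
    refine h4_en_sup Z k _ _ (inf_le_left.trans hinf) fun n hn => ?_
    by_cases hp : PN t m (nd n)
    · refine le_iSup_of_le (nd n) (le_iSup_of_le (h4_prefix_iff.1 hp) (inf_le_right.trans ?_))
      exact le_iSup₂ (f := fun (i : ℕ) (_ : k ≤ i ∧ nd i = nd n) =>
        Z i ⊓ ⨅ j : ℕ, ⨅ _ : k ≤ j ∧ j < i, (Z j)ᶜ) n ⟨hn, rfl⟩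
    · have h1 : (D ⊓ ⨅ n : ℕ, ⨅ _ : M ≤ n, (⨆ _ : ¬ PN t m (nd n), Z n)ᶜ) ≤ (Z n)ᶜ := by
        refine inf_le_right.trans ((iInf_le _ n).trans ((iInf_le _ (hk.trans hn)).trans ?_))
        rw [compl_le_compl_iff_le]
        exact le_iSup (fun _ : ¬ PN t m (nd n) => Z n) hp
      refine (inf_le_inf h1 inf_le_left).trans ?_
      rw [compl_inf_eq_bot]
      exact bot_le
  · refine le_iInf fun β => ?_
    rw [top_inf_eq, le_himp_iff]
    change D ⊓ okV t (c β) ≤ _
    -- the convergence to `t`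
    have key : ∀ (m : ℕ) (b : B), b ≤ D ⊓ okV t (c β) →
        (∀ (n j : ℕ) (u : List ℕ), m ≤ j → nd n = t ++ j :: u → ∀ (i : ℕ) (hi : i < (nd n).length),
          t.length ≤ i → b ⊓ Z n ⊓ valV (c β) (wt ((nd n).take i)) (nd n)[i] ≤ ⊥) →
        b ≤ ⨆ K : ℕ, ⨅ k : ℕ, ⨅ _ : K ≤ k, ⨅ a : Node, enN Z k a ⇨ uV (decV (c β)) a := by
      intro m b hb hv
      refine h4_fin_split ((hb.trans inf_le_left).trans (hcon m)) fun M => ?_
      refine h4_en_le (K := M) fun n hn => ?_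
      by_cases hp : PN t m (nd n)
      · obtain ⟨j, u, hj, hju⟩ := hp
        refine (inf_le_inf inf_le_left le_rfl).trans ?_
        have := h4_ok (x := c β) (t := t) (s := nd n) (d := b ⊓ Z n)
          (inf_le_left.trans (hb.trans inf_le_right)) ⟨j :: u, hju.symm⟩
          (fun i hi hti => hv n j u hj hju i hi hti)
        exact this
      · have h1 : (b ⊓ ⨅ n : ℕ, ⨅ _ : M ≤ n, (⨆ _ : ¬ PN t m (nd n), Z n)ᶜ) ≤ (Z n)ᶜ := by
          refine inf_le_right.trans ((iInf_le _ n).trans ((iInf_le _ hn).trans ?_))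
          rw [compl_le_compl_iff_le]
          exact le_iSup (fun _ : ¬ PN t m (nd n) => Z n) hp
        refine (inf_le_inf h1 le_rfl).trans ?_
        rw [compl_inf_eq_bot]
        exact bot_le
    rcases lt_or_ge β γ with hβ | hβ
    · refine h4_fin_split (hav β hβ) fun M => ?_
      -- late members avoid `c β`
      refine h4_fin_split ((inf_le_left.trans inf_le_left).trans (hcon 0)) fun M' => ?_
      refine h4_en_le (K := max M M') fun n hn => ?_
      by_cases hp : PN t 0 (nd n)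
      · obtain ⟨j, u, hj, hju⟩ := hp
        refine h4_ok (x := c β) (t := t) (s := nd n) ?_ ⟨j :: u, hju.symm⟩ ?_
        · exact (inf_le_left.trans (inf_le_left.trans inf_le_left)).trans inf_le_right
        · intro i hi hti
          have h1 : (D ⊓ okV t (c β) ⊓ (⨅ n : ℕ, ⨅ _ : M ≤ n, (Z n ⊓ (avV t (c β) (nd n))ᶜ)ᶜ) ⊓
              ⨅ n : ℕ, ⨅ _ : M' ≤ n, (⨆ _ : ¬ PN t 0 (nd n), Z n)ᶜ) ⊓ Z n ≤
              avV t (c β) (nd n) := by
            have h2 : (⨅ n : ℕ, ⨅ _ : M ≤ n, (Z n ⊓ (avV t (c β) (nd n))ᶜ)ᶜ) ⊓ Z n ≤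
                avV t (c β) (nd n) := by
              rw [← le_himp_iff]
              refine (iInf_le _ n).trans ((iInf_le _ ((le_max_left _ _).trans hn)).trans ?_)
              rw [compl_inf, compl_compl, himp_eq, sup_comm]
            exact (inf_le_inf (inf_le_left.trans inf_le_right) le_rfl).trans h2
          have h3 : avV t (c β) (nd n) ≤ (valV (c β) (wt ((nd n).take i)) (nd n)[i])ᶜ := by
            unfold Pool.Agent.Helper32.FR.avV
            exact (iInf_le _ i).trans ((iInf_le _ hi).trans (iInf_le _ hti))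
          refine (inf_le_inf (h1.trans h3) le_rfl).trans ?_
          rw [compl_inf_eq_bot]
      · have h1 : (⨅ n : ℕ, ⨅ _ : M' ≤ n, (⨆ _ : ¬ PN t 0 (nd n), Z n)ᶜ) ≤ (Z n)ᶜ := by
          refine (iInf_le _ n).trans ((iInf_le _ ((le_max_right _ _).trans hn)).trans ?_)
          rw [compl_le_compl_iff_le]
          exact le_iSup (fun _ : ¬ PN t 0 (nd n) => Z n) hp
        refine (inf_le_inf (inf_le_right.trans h1) le_rfl).trans ?_
        rw [compl_inf_eq_bot]
        exact bot_le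
    · have hls : leStar (decV (c γ)) (decV (c β)) = ⊤ := by
        rcases hβ.eq_or_lt with rfl | h
        · unfold leStar
          refine top_le_iff.1 (le_iSup_of_le 0 (le_iInf fun n => le_iInf fun _ =>
            le_iInf fun k => ?_))
          rw [himp_self]
        · exact hc.mono γ β h
      refine h4_leStar_split (f := decV (c γ)) (g := decV (c β)) (hls ▸ le_top) fun M => ?_
      have htot : (⊤ : B) ≤ ⨆ v, decV (c β) (wt t) v := ((decV_isFn (c β)).tot (wt t)).ge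
      refine h4_split (fun v => decV (c β) (wt t) v) (le_top.trans htot) fun v => ?_
      refine key (max M (v + 1)) _ (inf_le_left.trans inf_le_left) ?_
      intro n j u hj hju i hi hti
      rcases hti.eq_or_lt with rfl | hlt
      · have e1 : (nd n).take t.length = t := by rw [hju]; simp
        have e2 : (nd n)[t.length] = j := by simp [hju]
        rw [e2, e1]
        have h1 : valV (c β) (wt t) j ≤ (decV (c β) (wt t) v)ᶜ := by
          unfold Pool.Agent.Helper32.FR.valV eqN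
          exact inf_le_right.trans ((iInf_le _ v).trans (iInf_le _ (by omega)))
        refine (inf_le_inf (inf_le_left.trans inf_le_right) h1).trans ?_
        rw [inf_compl_eq_bot]
      · have h1 := hS n i hi hlt
        have hw : M ≤ wt ((nd n).take i) := by
          refine le_trans ?_ (le_trans hj (hju ▸ h4_wt hlt))
          exact le_max_left _ _
        have h2 : valV (c β) (wt ((nd n).take i)) (nd n)[i] ≤
            decV (c β) (wt ((nd n).take i)) (nd n)[i] := inf_le_left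
        have h3 : (⨅ n : ℕ, ⨅ _ : M ≤ n, ⨅ k : ℕ, decV (c β) n k ⇨ decV (c γ) n k) ⊓
            decV (c β) (wt ((nd n).take i)) (nd n)[i] ≤
            decV (c γ) (wt ((nd n).take i)) (nd n)[i] := by
          rw [← le_himp_iff]
          exact (iInf_le _ _).trans ((iInf_le _ hw).trans (iInf_le _ _))
        have h4 : ((D ⊓ okV t (c β) ⊓ ⨅ n : ℕ, ⨅ _ : M ≤ n, ⨅ k : ℕ,
            decV (c β) n k ⇨ decV (c γ) n k) ⊓ decV (c β) (wt t) v) ⊓ Z n ⊓
            valV (c β) (wt ((nd n).take i)) (nd n)[i] ≤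
            (decV (c γ) (wt ((nd n).take i)) (nd n)[i])ᶜ ⊓
              decV (c γ) (wt ((nd n).take i)) (nd n)[i] := by
          refine le_inf ?_ ?_
          · refine inf_le_left.trans (le_trans ?_ h1)
            exact inf_le_inf (inf_le_left.trans (inf_le_left.trans inf_le_left)) le_rfl
          · refine le_trans ?_ h3
            refine le_inf ?_ (inf_le_right.trans h2)
            exact inf_le_left.trans (inf_le_left.trans (inf_le_left.trans inf_le_right))
        refine h4.trans ?_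
        rw [compl_inf_eq_bot]

end Main

end Pool.Agent.Helper50.LF
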